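import Mathlib
import Pool.Agent.H14.Fpp

set_option autoImplicit false

namespace Pool.Agent.Results.MP_eb30e1_co.Both

open Finset Pool.Agent.H14.Fpp

def sw (x : ℕ) : ℕ := if x % 2 = 0 then x + 1 else x - 1

/-! first chain -/

def a1 (n i j : ℕ) : ℕ :=
  if i / 2 < (n - 3) / 2 then (if j / 2 = i / 2 then n + 2 else i / 2)
  else if j + 1 = n then n + 1 else n

def a2 (n i j : ℕ) : ℕ :=
  if i / 2 < (n - 3) / 2 then (if j / 2 = i / 2 then i else
    if j + 1 = n then (if i % 2 = 0 then 2 * n + 1 else 2 * n) else if i % 2 = 0 then j else n + j)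
  else if j + 1 = n then i else 2 * (n - (j - i)) + i % 2

lemma sws (x : ℕ) : x % 2 = 0 ∧ sw x = x + 1 ∨ x % 2 = 1 ∧ sw x + 1 = x := by
  unfold sw
  split_ifs <;> omega

lemma as (n i j : ℕ) :
    (i / 2 < (n - 3) / 2 ∧ ((j / 2 = i / 2 ∧ a1 n i j = n + 2 ∧ a2 n i j = i) ∨
      (j / 2 ≠ i / 2 ∧ a1 n i j = i / 2 ∧
        ((j + 1 = n ∧ i % 2 = 0 ∧ a2 n i j = 2 * n + 1) ∨ (j + 1 = n ∧ i % 2 = 1 ∧ a2 n i j = 2 * n) ∨
        (j + 1 ≠ n ∧ i % 2 = 0 ∧ a2 n i j = j) ∨ (j + 1 ≠ n ∧ i % 2 = 1 ∧ a2 n i j = n + j))))) ∨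
    ((n - 3) / 2 ≤ i / 2 ∧ ((j + 1 = n ∧ a1 n i j = n + 1 ∧ a2 n i j = i) ∨
      (j + 1 ≠ n ∧ a1 n i j = n ∧ a2 n i j = 2 * (n - (j - i)) + i % 2))) := by
  unfold a1 a2
  split_ifs <;> omega

lemma wa (n : ℕ) (hn : 3 ≤ n) : Wt (a1 n) (a2 n) n := by
  constructor
  · intro i j k l h1 h2 h3 h4 h5 h6
    have := as n i j
    have := as n k l
    omega
  · intro i j k h1 h2 h3
    have := as n i j
    have := as n i k
    have := as n j k
    omega

lemma nfa (n : ℕ) (hn : 3 ≤ n) (p : Fin n × Fin n) (hp : p.1 < p.2)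
    (h : a1 n p.1 p.2 ≤ n ∨ (p.1.1 = 2 * ((n - 3) / 2) ∧ p.2.1 + 1 = n)) :
    ¬ FPP (ch (a1 n) (a2 n) (rk (a1 n) (a2 n) p) : Finset (Fin n × Fin n)) := by
  obtain ⟨⟨i, hi⟩, ⟨j, hj⟩⟩ := p
  have hp' : i < j := hp
  simp only at h
  have s0 := as n i j
  by_cases e : i / 2 < (n - 3) / 2 ∧ j + 1 = n ∧ i % 2 = 0
  · obtain ⟨f, hf⟩ : ∃ f : ℕ → ℕ, ∀ x, (x < i + 2 ∧ x % 2 = 0 ∧ f x = x + 1) ∨
        (x < i + 2 ∧ x % 2 = 1 ∧ f x + 1 = x) ∨ (x = i + 2 ∧ f x = i + 3) ∨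
        (i + 2 < x ∧ f x = i + 2) :=
      ⟨fun x => if x < i + 2 then sw x else if x = i + 2 then i + 3 else i + 2, fun x => by
        have := sws x
        simp only
        split_ifs <;> omega⟩
    have e1 : a1 n i j = i / 2 := by omega
    have e2 : a2 n i j = 2 * n + 1 := by omega
    refine (wa n hn).nf hp f (fun x hx => ?_) fun x y h1 h2 h3 => ?_
    · have := hf x
      omega
    · simp only [e1, e2] at h3 ⊢
      clear s0 e1 e2 h
      have s1 := as n x y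
      have t1 : (x < i + 2 ∧ x / 2 < y / 2) := by omega
      have s2 := as n (f x) (f y)
      have := hf x
      have := hf y
      clear s1 h3
      omega
  · obtain ⟨b, b1, b2, b3⟩ : ∃ b, b ≤ (n - 3) / 2 ∧ b ≤ a1 n i j ∧
        ∀ x y, x < y → y < n → (a1 n x y < a1 n i j ∨ a1 n x y = a1 n i j ∧ a2 n x y < a2 n i j) →
          (x < 2 * b ∧ x / 2 < y / 2) ∨ (2 * b ≤ x ∧ y + 1 ≠ n) := by
      refine ⟨min (i / 2) ((n - 3) / 2), by omega, by omega, fun x y h1 h2 h3 => ?_⟩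
      have := as n x y
      omega
    obtain ⟨f, hf⟩ : ∃ f : ℕ → ℕ, ∀ x, (x < 2 * b ∧ x % 2 = 0 ∧ f x = x + 1) ∨
        (x < 2 * b ∧ x % 2 = 1 ∧ f x + 1 = x) ∨ (2 * b ≤ x ∧ x + 1 = n ∧ f x = 2 * b) ∨
        (2 * b ≤ x ∧ x + 1 ≠ n ∧ f x + 1 = n) :=
      ⟨fun x => if x < 2 * b then sw x else if x + 1 = n then 2 * b else n - 1, fun x => by
        have := sws x
        simp only
        split_ifs <;> omega⟩
    refine (wa n hn).nf hp f (fun x hx => ?_) fun x y h1 h2 h3 => ?_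
    · have := hf x
      omega
    · have c1 := b3 x y h1 h2 h3
      have s2 := as n (f x) (f y)
      have := hf x
      have := hf y
      simp only
      clear h3 s0 h e
      omega

lemma numa (n : ℕ) (hn : 3 ≤ n) : num (ch (n := n) (a1 n) (a2 n)) ≤ n / 2 + 1 := by
  classical
  have h1 : num (ch (n := n) (a1 n) (a2 n)) ≤ (insert (n.choose 2)
      ((univ.filter fun p : Fin n × Fin n => p.1 < p.2 ∧ ¬ (a1 n p.1 p.2 ≤ n ∨
        (p.1.1 = 2 * ((n - 3) / 2) ∧ p.2.1 + 1 = n))).image (rk (a1 n) (a2 n)))).card := by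
    refine card_le_card fun i hi => ?_
    simp only [mem_filter, mem_range] at hi
    rcases Nat.lt_succ_iff_lt_or_eq.1 hi.1 with e | e
    · obtain ⟨p, hp, rfl⟩ := (wa n hn).surj i e
      exact mem_insert_of_mem (mem_image.2 ⟨p, mem_filter.2
        ⟨mem_univ _, hp, fun a => nfa n hn p hp a hi.2⟩, rfl⟩)
    · rw [e]; exact mem_insert_self _ _
  refine h1.trans ((card_insert_le _ _).trans (Nat.succ_le_succ (card_image_le.trans ?_)))
  refine (card_le_card_of_injOn (t := range (n / 2)) (fun p => if p.2.1 + 1 = n then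
    p.1.1 - (n - 3) / 2 - 1 else p.1.1 / 2) (fun p hp => ?_) fun p hp q hq e => ?_).trans (by simp)
  · simp only [coe_filter, mem_univ, true_and, Set.mem_ofPred_eq, coe_range, Set.mem_Iio, a1,
      Fin.lt_def] at hp ⊢
    have := p.2.2
    split_ifs at hp ⊢ <;> omega
  · simp only [coe_filter, mem_univ, true_and, Set.mem_ofPred_eq, a1, Fin.lt_def] at hp hq e
    have := p.2.2
    have := q.2.2
    refine Prod.ext (Fin.ext ?_) (Fin.ext ?_) <;> split_ifs at hp hq e <;> omega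

/-! second chain -/

def b1 (n i j : ℕ) : ℕ := if i % 2 = 0 ∧ j = i + 1 then n + 1 else (i + 1) / 2

def b2 (n i j : ℕ) : ℕ :=
  if i % 2 = 0 then (if j = i + 1 then i else 2 * j + 1)
  else if j = i + 3 then 0 else if j = i + 1 then 1 else if j = i + 2 then 2 * n + 1 else 2 * j

lemma bs (n i j : ℕ) :
    (i % 2 = 0 ∧ j = i + 1 ∧ b1 n i j = n + 1 ∧ b2 n i j = i) ∨
    (i % 2 = 0 ∧ j ≠ i + 1 ∧ 2 * b1 n i j = i ∧ b2 n i j = 2 * j + 1) ∨
    (i % 2 = 1 ∧ 2 * b1 n i j = i + 1 ∧ ((j = i + 3 ∧ b2 n i j = 0) ∨ (j = i + 1 ∧ b2 n i j = 1) ∨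
      (j = i + 2 ∧ b2 n i j = 2 * n + 1) ∨
      (j ≠ i + 1 ∧ j ≠ i + 2 ∧ j ≠ i + 3 ∧ b2 n i j = 2 * j))) := by
  unfold b1 b2
  split_ifs <;> omega

lemma wb (n : ℕ) : Wt (b1 n) (b2 n) n := by
  constructor
  · intro i j k l h1 h2 h3 h4 h5 h6
    have := bs n i j
    have := bs n k l
    omega
  · intro i j k h1 h2 h3
    have := bs n i j
    have := bs n i k
    have := bs n j k
    omega

def Good (n i j : ℕ) : Prop :=
  (i % 2 = 0 ∧ 2 ≤ i ∧ i + 2 ≤ j) ∨ (i % 2 = 1 ∧ j = i + 3) ∨ (i % 2 = 1 ∧ j = i + 1 ∧ n ≤ i + 3) ∨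
    (n % 2 = 0 ∧ i = 0 ∧ j = 1)

lemma nfb (n : ℕ) (p : Fin n × Fin n) (hp : p.1 < p.2) (h : Good n p.1 p.2) :
    ¬ FPP (ch (b1 n) (b2 n) (rk (b1 n) (b2 n) p) : Finset (Fin n × Fin n)) := by
  obtain ⟨⟨i, hi⟩, ⟨j, hj⟩⟩ := p
  have hp' : i < j := hp
  simp only [Good] at h
  have s0 := bs n i j
  by_cases e : i % 2 = 1
  · obtain ⟨f, hf⟩ : ∃ f : ℕ → ℕ, ∀ x, (x + 1 < i ∧ x % 2 = 0 ∧ f x = x + 1) ∨
        (x + 1 < i ∧ x % 2 = 1 ∧ f x + 1 = x) ∨ (x = i ∧ f x + 1 = i) ∨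
        (i ≤ x + 1 ∧ x ≠ i ∧ f x = i) :=
      ⟨fun x => if x + 1 < i then sw x else if x = i then i - 1 else i, fun x => by
        have := sws x
        simp only
        split_ifs <;> omega⟩
    refine (wb n).nf hp f (fun x hx => ?_) fun x y h1 h2 h3 => ?_
    · have := hf x
      omega
    · simp only at h3 ⊢
      have s1 := bs n x y
      have t0 : 2 * b1 n i j = i + 1 := by omega
      have t1 : x < i ∧ x / 2 < y / 2 := by omega
      have s2 := bs n (f x) (f y)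
      have := hf x
      have := hf y
      clear s1 h3 s0 h
      omega
  by_cases e' : i = 0
  · refine (wb n).nf hp sw (fun x hx => ?_) fun x y h1 h2 h3 => ?_
    · have := sws x
      omega
    · simp only at h3 ⊢
      have s1 := bs n x y
      have t0 : b1 n i j = n + 1 ∧ b2 n i j = 0 := by omega
      have t1 : x / 2 < y / 2 := by omega
      have s2 := bs n (sw x) (sw y)
      have := sws x
      have := sws y
      clear s1 h3 s0 h
      omega
  · obtain ⟨f, hf⟩ : ∃ f : ℕ → ℕ, ∀ x, (x < i ∧ x % 2 = 0 ∧ f x = x + 1) ∨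
        (x < i ∧ x % 2 = 1 ∧ f x + 1 = x) ∨ ((x = i ∨ (i + 1 < x ∧ x < j)) ∧ f x = j) ∨
        ((x = i + 1 ∨ j ≤ x) ∧ f x = i) :=
      ⟨fun x => if x < i then sw x else if x = i + 1 ∨ j ≤ x then i else j, fun x => by
        have := sws x
        simp only
        split_ifs <;> omega⟩
    refine (wb n).nf hp f (fun x hx => ?_) fun x y h1 h2 h3 => ?_
    · have := hf x
      omega
    · simp only at h3 ⊢
      have s1 := bs n x y
      have t0 : 2 * b1 n i j = i ∧ b2 n i j = 2 * j + 1 ∧ i % 2 = 0 ∧ i + 2 ≤ j := by omega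
      have t1 : (x < i ∧ x / 2 < y / 2) ∨ (x = i ∧ i + 1 < y ∧ y < j) := by omega
      have s2 := bs n (f x) (f y)
      have := hf x
      have := hf y
      clear s1 h3 s0 h
      omega

lemma fb (n : ℕ) (p : Fin n × Fin n) (hp : p.1 < p.2) (h : Good n p.1 p.2) :
    FPP (ch (b1 n) (b2 n) (rk (b1 n) (b2 n) p + 1) : Finset (Fin n × Fin n)) := by
  by_contra hn
  obtain ⟨f, f1, f2⟩ := nfp ((wb n).chain.1 _ (rk_lt_M hp)) hn
  simp only [((wb n).mem hp _ _).2] at f1 f2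
  obtain ⟨⟨i, hi⟩, ⟨j, hj⟩⟩ := p
  have hp' : i < j := hp
  simp only [Good] at h f1 f2
  have s0 := bs n i j
  by_cases e' : i = 0
  · have c := (f2 ⟨0, by omega⟩).1
    have := (f ⟨0, by omega⟩).2
    generalize (f ⟨0, by omega⟩).1 = y at *
    have := bs n 0 y
    simp only at c
    omega
  · obtain ⟨a, ha⟩ : ∃ a, 2 * a + 2 = 2 * b1 n i j := ⟨b1 n i j - 1, by omega⟩
    have ha' : 2 * a < n := by omega
    have c1 := f2 ⟨2 * a, ha'⟩
    have := (f ⟨2 * a, ha'⟩).2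
    have d1 : (f ⟨2 * a, ha'⟩).1 = 2 * a + 1 := by
      generalize (f ⟨2 * a, ha'⟩).1 = y at *
      have := bs n (2 * a) y
      have := bs n y (2 * a)
      simp only at c1
      omega
    obtain ⟨t, ht, ht'⟩ : ∃ t, t < n ∧ (i % 2 = 0 ∧ t = i ∨ i % 2 = 1 ∧ t = j) := by
      by_cases e : i % 2 = 0
      · exact ⟨i, hi, by omega⟩
      · exact ⟨j, hj, by omega⟩
    have c2 := f1 ⟨2 * a, ha'⟩ ⟨t, ht⟩ (by
      have := bs n (2 * a) t
      simp only
      omega)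
    have c3 := f2 ⟨t, ht⟩
    have := (f ⟨t, ht⟩).2
    rw [d1] at c2
    clear c1 f1 f2 d1
    generalize (f ⟨t, ht⟩).1 = y at *
    have := bs n (2 * a + 1) y
    have := bs n t y
    have := bs n y t
    simp only at c3
    omega

lemma adjb (n : ℕ) (hn : 2 ≤ n) : (n - 2) ^ 2 / 4 + 1 ≤ adj (ch (n := n) (b1 n) (b2 n)) := by
  classical
  have h1 : (univ.filter fun p : Fin n × Fin n => p.1 < p.2 ∧ Good n p.1 p.2).card ≤
      adj (ch (n := n) (b1 n) (b2 n)) := by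
    refine card_le_card_of_injOn (rk (b1 n) (b2 n)) (fun p hp => ?_) fun p hp q hq e => ?_
    · simp only [coe_filter, mem_univ, true_and, Set.mem_ofPred_eq, mem_range] at hp ⊢
      exact ⟨rk_lt_M hp.1, nfb n p hp.1 hp.2, fb n p hp.1 hp.2⟩
    · simp only [coe_filter, mem_univ, true_and, Set.mem_ofPred_eq] at hp hq
      exact ((wb n).rk_iff hp.1 hq.1).2.1 e
  refine le_trans (le_of_eq ?_) (le_trans (card_le_card_of_surjOn
    (t := insert (n, n) (range ((n - 2) / 2) ×ˢ range ((n - 1) / 2)))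
    (fun p : Fin n × Fin n => if p.1.1 % 2 = 0 ∧ 2 ≤ p.1.1 then
      (if p.2.1 - p.1.1 + p.1.1 / 2 - 2 < (n - 1) / 2 then
        (p.1.1 / 2 - 1, p.2.1 - p.1.1 + p.1.1 / 2 - 2)
      else (p.2.1 - (n - 1) / 2 - 2, p.1.1 / 2 - 1))
      else if p.1.1 % 2 = 1 ∧ p.1.1 + 2 < n then (p.1.1 / 2, p.1.1 / 2) else (n, n)) ?_) h1)
  · rw [card_insert_of_notMem (by simp; omega), card_product, card_range, card_range]
    obtain ⟨m, rfl⟩ := Nat.exists_eq_add_of_le' hn
    simp only [Nat.add_sub_cancel]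
    rcases Nat.even_or_odd' m with ⟨r, rfl | rfl⟩
    · rw [show (2 * r) ^ 2 = 4 * (r * r) by ring, show 2 * r / 2 = r by omega,
        show (2 * r + 2 - 1) / 2 = r by omega]
      omega
    · rw [show (2 * r + 1) ^ 2 = 4 * (r * (r + 1)) + 1 by ring, show (2 * r + 1) / 2 = r by omega,
        show (2 * r + 1 + 2 - 1) / 2 = r + 1 by omega]
      omega
  · rintro ⟨x, y⟩ hxy
    simp only [coe_insert, coe_product, coe_range, Set.mem_insert_iff, Prod.mk.injEq,
      Set.mem_prod, Set.mem_Iio] at hxy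
    obtain ⟨i, j, h2, h3, h4, h5⟩ : ∃ i j, i < j ∧ j < n ∧ Good n i j ∧
        (if i % 2 = 0 ∧ 2 ≤ i then
          (if j - i + i / 2 - 2 < (n - 1) / 2 then (i / 2 - 1, j - i + i / 2 - 2)
          else (j - (n - 1) / 2 - 2, i / 2 - 1))
        else if i % 2 = 1 ∧ i + 2 < n then (i / 2, i / 2) else (n, n)) = (x, y) := by
      unfold Good
      rcases hxy with ⟨rfl, rfl⟩ | ⟨hx, hy⟩
      · by_cases e : y % 2 = 0
        · exact ⟨0, 1, by omega, by omega, by omega, by simp⟩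
        · refine ⟨y - 2, y - 1, by omega, by omega, by omega, ?_⟩
          rw [if_neg (by omega), if_neg (by omega)]
      · rcases lt_trichotomy x y with e | rfl | e
        · refine ⟨2 * x + 2, x + y + 3, by omega, by omega, by omega, ?_⟩
          rw [if_pos (by omega), if_pos (by omega)]
          exact Prod.ext (by simp only; omega) (by simp only; omega)
        · refine ⟨2 * x + 1, if 2 * x + 4 < n then 2 * x + 4 else 2 * x + 2, ?_, ?_, ?_, ?_⟩
          · split_ifs <;> omega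
          · split_ifs <;> omega
          · split_ifs <;> omega
          · rw [if_neg (by omega), if_pos (by omega)]
            exact Prod.ext (by simp only; omega) (by simp only; omega)
        · refine ⟨2 * y + 2, x + (n - 1) / 2 + 2, by omega, by omega, by omega, ?_⟩
          rw [if_pos (by omega), if_neg (by omega)]
          exact Prod.ext (by simp only; omega) (by simp only; omega)
    exact ⟨(⟨i, by omega⟩, ⟨j, h3⟩), by simpa using ⟨h2, h4⟩, h5⟩

theorem result (n : ℕ) :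
    (3 ≤ n → IsLeast {m | ∃ c : ℕ → Finset (Fin n × Fin n), MaxChain c ∧ num c = m}
      (n / 2 + 1)) ∧
    (2 ≤ n → IsGreatest {m | ∃ c : ℕ → Finset (Fin n × Fin n), MaxChain c ∧ adj c = m}
      ((n - 2) ^ 2 / 4 + 1)) := by
  refine ⟨fun hn => ⟨⟨_, (wa n hn).chain, le_antisymm (numa n hn) ((wa n hn).chain.num_ge hn)⟩,
    ?_⟩, fun hn => ⟨⟨_, (wb n).chain, le_antisymm ((wb n).chain.adj_le hn) (adjb n hn)⟩, ?_⟩⟩
  · rintro _ ⟨c, hc, rfl⟩
    exact hc.num_ge hn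
  · rintro _ ⟨c, hc, rfl⟩
    exact hc.adj_le hn

end Pool.Agent.Results.MP_eb30e1_co.Both
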